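import Mathlib
import Pool.Agent.H380.AG.Stm

/-!
# Task ISO: moments for isotropic complex vectors
-/

set_option autoImplicit false

open MeasureTheory Metric Set Filter Topology
open scoped ENNReal RealInnerProductSpace

namespace Pool.Agent.H284.AG

open Pool.Agent.W778.AG Pool.Agent.H380.AG

theorem inner_sum {n : ℕ} (x y : En n) : ⟪x, y⟫ = ∑ i, x i * y i := by
  rw [PiLp.inner_apply]
  refine Finset.sum_congr rfl fun i _ => ?_
  simp [mul_comm]

theorem norm_sum_sq {n : ℕ} (x : En n) : ‖x‖ ^ 2 = ∑ i, x i * x i := by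
  rw [← real_inner_self_eq_norm_sq, inner_sum]

theorem cont_cd {n : ℕ} (z : Fin n → ℂ) : Continuous (fun b : En n => cd b z) := by
  unfold cd
  refine continuous_finsetSum _ (fun i _ => ?_)
  have h : Continuous (fun b : En n => b i) := (EuclideanSpace.proj i : En n →L[ℝ] ℝ).continuous
  exact (Complex.continuous_ofReal.comp h).mul continuous_const

theorem cd_bound {n : ℕ} (z : Fin n → ℂ) (b : En n) (hb : ‖b‖ = 1) :
    ‖cd b z‖ ≤ ∑ i, ‖z i‖ := by
  unfold cd
  refine (norm_sum_le _ _).trans (Finset.sum_le_sum fun i _ => ?_)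
  rw [norm_mul, Complex.norm_real]
  have h : ‖b i‖ ≤ ‖b‖ := PiLp.norm_apply_le b i
  calc ‖b i‖ * ‖z i‖ ≤ 1 * ‖z i‖ := mul_le_mul_of_nonneg_right (by linarith) (norm_nonneg _)
    _ = ‖z i‖ := one_mul _

theorem sph_ae {n : ℕ} {σ : Measure (En n)} (h : Sph σ) : ∀ᵐ b ∂σ, ‖b‖ = 1 := by
  have h1 : sphere (0 : En n) 1 ∈ ae σ := mem_ae_iff.2 h.2
  filter_upwards [h1] with b hb
  simpa using hb

theorem int_cd {n : ℕ} {σ : Measure (En n)} (h : Sph σ) (z : Fin n → ℂ) (j : ℕ) :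
    Integrable (fun b => cd b z ^ j) σ := by
  have := h.1
  refine Integrable.of_bound ((cont_cd z).pow j).aestronglyMeasurable ((∑ i, ‖z i‖) ^ j) ?_
  filter_upwards [sph_ae h] with b hb
  rw [norm_pow]
  exact pow_le_pow_left₀ (norm_nonneg _) (cd_bound z b hb) j

theorem LC_expand {n : ℕ} (k : ℕ) (A D : ℂ) :
    LC n (fun φ => (A + D * (Real.cos φ : ℂ)) ^ k) =
      ∑ m ∈ Finset.range (k + 1), A ^ m * D ^ (k - m) * (k.choose m : ℂ) *
        (mom n (k - m) : ℂ) := by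
  unfold LC
  have h1 : ∀ φ : ℝ, (A + D * (Real.cos φ : ℂ)) ^ k * ((Real.sin φ ^ (n - 3) : ℝ) : ℂ) =
      ∑ m ∈ Finset.range (k + 1), (A ^ m * D ^ (k - m) * (k.choose m : ℂ)) *
        ((Real.cos φ ^ (k - m) * Real.sin φ ^ (n - 3) : ℝ) : ℂ) := by
    intro φ
    rw [add_pow, Finset.sum_mul]
    refine Finset.sum_congr rfl fun m _ => ?_
    rw [mul_pow]
    push_cast
    ring
  simp_rw [h1]
  rw [intervalIntegral.integral_finsetSum, Finset.sum_div]
  · refine Finset.sum_congr rfl fun m _ => ?_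
    rw [intervalIntegral.integral_const_mul, intervalIntegral.integral_ofReal, mul_div_assoc]
    unfold mom Pool.Agent.W778.AG.LE
    rw [Complex.ofReal_div]
  · intro m _
    refine Continuous.intervalIntegrable ?_ _ _
    exact continuous_const.mul (Complex.continuous_ofReal.comp (by fun_prop))

/-- real part of `z - c v` -/
noncomputable def pv {n : ℕ} (v : En n) (z : Fin n → ℂ) (c : ℂ) : En n :=
  WithLp.toLp 2 fun i => (z i - c * v i).re

/-- imaginary part of `z - c v` -/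
noncomputable def qv {n : ℕ} (v : En n) (z : Fin n → ℂ) (c : ℂ) : En n :=
  WithLp.toLp 2 fun i => (z i - c * v i).im

theorem pv_qv {n : ℕ} (v : En n) (z : Fin n → ℂ) (c : ℂ) (i : Fin n) :
    ((pv v z c i : ℝ) : ℂ) + Complex.I * ((qv v z c i : ℝ) : ℂ) = z i - c * v i := by
  change (((z i - c * v i).re : ℝ) : ℂ) + Complex.I * (((z i - c * v i).im : ℝ) : ℂ) = _
  rw [mul_comm Complex.I]
  exact Complex.re_add_im _

theorem cd_pq {n : ℕ} (v : En n) (z : Fin n → ℂ) (c : ℂ) (b : En n) :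
    ((⟪b, pv v z c⟫ : ℝ) : ℂ) + Complex.I * ((⟪b, qv v z c⟫ : ℝ) : ℂ) =
      cd b z - c * ((⟪b, v⟫ : ℝ) : ℂ) := by
  rw [inner_sum, inner_sum, inner_sum]
  unfold cd
  push_cast
  rw [Finset.mul_sum, Finset.mul_sum, ← Finset.sum_add_distrib, ← Finset.sum_sub_distrib]
  refine Finset.sum_congr rfl fun i _ => ?_
  have h := pv_qv v z c i
  linear_combination (b i : ℂ) * h

theorem qf_pq {n : ℕ} (v : En n) (hv : ‖v‖ = 1) (z : Fin n → ℂ) (hz : qf z = 0) :
    (((‖pv v z (cd v z)‖ ^ 2 - ‖qv v z (cd v z)‖ ^ 2 : ℝ) : ℂ) +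
      2 * Complex.I * ((⟪pv v z (cd v z), qv v z (cd v z)⟫ : ℝ) : ℂ)) = - cd v z ^ 2 := by
  have hv2 : (∑ i, (v i : ℂ) * (v i : ℂ)) = 1 := by
    have h := norm_sum_sq v
    rw [hv] at h
    have h2 : ((∑ i, v i * v i : ℝ) : ℂ) = 1 := by
      rw [← h]
      norm_num
    rw [← h2]
    push_cast
    rfl
  set c := cd v z with hc
  have hz2 : ∑ i, z i ^ 2 = 0 := hz
  have hc2 : ∑ i, (v i : ℂ) * z i = c := rfl
  have h1 : ∑ i, (z i - c * v i) ^ 2 = - c ^ 2 := by
    have h2 : ∀ i, (z i - c * v i) ^ 2 = z i ^ 2 - 2 * c * ((v i : ℂ) * z i) +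
        c ^ 2 * ((v i : ℂ) * (v i : ℂ)) := by
      intro i
      ring
    simp_rw [h2]
    rw [Finset.sum_add_distrib, Finset.sum_sub_distrib, ← Finset.mul_sum, ← Finset.mul_sum, hz2,
      hc2, hv2]
    ring
  rw [← h1, norm_sum_sq, norm_sum_sq, inner_sum]
  push_cast
  rw [Finset.mul_sum, ← Finset.sum_sub_distrib, ← Finset.sum_add_distrib]
  refine Finset.sum_congr rfl fun i _ => ?_
  rw [← pv_qv v z c i]
  linear_combination (-((qv v z c i : ℝ) : ℂ) ^ 2) * Complex.I_sq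

theorem moments (h1 : S_CXM) (h2 : S_MOM) {n : ℕ} (hn : 3 ≤ n) (v : En n) (σ : Measure (En n))
    (hv : ‖v‖ = 1) (hσ : Perp n v σ) (z : Fin n → ℂ) (hz : qf z = 0) (j : ℕ) :
    ∫ b, cd b z ^ j ∂σ = (mom n j : ℂ) * (Complex.I * cd v z) ^ j := by
  obtain ⟨hS, hperp, hmom⟩ := hσ
  have hodd := (h2 n hn).1
  have hvv : ⟪v, v⟫ = (1 : ℝ) := by rw [real_inner_self_eq_norm_sq, hv, one_pow]
  have hpq0 := cd_pq v z (cd v z) v
  rw [hvv, Complex.ofReal_one, mul_one, sub_self] at hpq0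
  have hp0 : ⟪v, pv v z (cd v z)⟫ = (0 : ℝ) := by
    have := congrArg Complex.re hpq0
    simpa using this
  have hq0 : ⟪v, qv v z (cd v z)⟫ = (0 : ℝ) := by
    have := congrArg Complex.im hpq0
    simpa using this
  have hC := h1 n σ (pv v z (cd v z)) (qv v z (cd v z)) (mom n) hS (by
    intro t j
    apply hmom
    rw [real_inner_comm, inner_add_right, inner_smul_right, hp0, hq0, mul_zero, add_zero]) hodd
  have hae : ∀ᵐ b ∂σ, cd b z ^ j = ((⟪b, pv v z (cd v z)⟫ : ℝ) +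
      Complex.I * (⟪b, qv v z (cd v z)⟫ : ℝ) : ℂ) ^ j := by
    have h3 : {b : En n | ⟪b, v⟫ ≠ 0}ᶜ ∈ ae σ := by
      rw [mem_ae_iff, compl_compl]
      exact hperp
    filter_upwards [h3] with b hb
    have hb' : ⟪b, v⟫ = (0 : ℝ) := by
      by_contra hcon
      exact hb hcon
    rw [cd_pq, hb', Complex.ofReal_zero, mul_zero, sub_zero]
  rw [integral_congr_ae hae]
  rcases Nat.even_or_odd' j with ⟨l, rfl | rfl⟩
  · rw [(hC l).1, qf_pq v hv z hz, pow_mul (Complex.I * cd v z), mul_pow, Complex.I_sq]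
    ring
  · rw [(hC l).2, hodd _ ⟨l, rfl⟩, Complex.ofReal_zero, zero_mul]

theorem t_ISO (h1 : S_CXM) (h2 : S_MOM) : S_ISO := by
  intro n hn v σ hv hσ k A B z hz
  have hM := moments h1 h2 hn v σ hv hσ z hz
  rw [LC_expand]
  have h3 : ∀ b : En n, (A * cd v z + B * cd b z) ^ k = ∑ m ∈ Finset.range (k + 1),
      ((A * cd v z) ^ m * B ^ (k - m) * (k.choose m : ℂ)) * cd b z ^ (k - m) := by
    intro b
    rw [add_pow]
    refine Finset.sum_congr rfl fun m _ => ?_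
    rw [mul_pow B]
    ring
  simp_rw [h3]
  rw [integral_finsetSum _ (fun m _ => (int_cd hσ.1 z (k - m)).const_mul _), Finset.mul_sum]
  refine Finset.sum_congr rfl fun m hm => ?_
  rw [integral_const_mul, hM]
  have hk : cd v z ^ k = cd v z ^ m * cd v z ^ (k - m) := by
    rw [← pow_add]
    congr 1
    have := Finset.mem_range.1 hm
    omega
  rw [hk, mul_pow, mul_pow, mul_pow]
  ring

end Pool.Agent.H284.AG
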